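import Mathlib

/-!
# MP_8bd56d_co: every parity class of directions contains a face of `Q` with an opposite point

`Q = Q(p,b)` is an integer g-polymatroid with `0 ∈ Q`.  For every parity vector `κ` there are an
integral direction `c ≡ κ (mod 2)` and an integral point `y` with `y ∈ Q`, `-y ∈ Q`, such that `y`
lies on the face of `Q` belonging to `c`: all sets `{c ≥ t}` with `t > 0` are tight for `b` and all
sets `{c ≤ t}` with `t < 0` are tight for `p`.
-/

namespace Pool.H465.ParityDirection

open Finset

section Base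

variable {V : Type*} [DecidableEq V]

/-- submodular on the subsets of `U` -/
def SubOn (U : Finset V) (f : Finset V → ℤ) : Prop :=
  ∀ S ⊆ U, ∀ T ⊆ U, f (S ∪ T) + f (S ∩ T) ≤ f S + f T

/-- the reduction of `f` after the value `t` has been given to the element `v` -/
def red (v : V) (t : ℤ) (f : Finset V → ℤ) (X : Finset V) : ℤ := min (f X) (f (insert v X) - t)

theorem red_sub {U : Finset V} {v : V} (hv : v ∉ U) {f : Finset V → ℤ}
    (hf : SubOn (insert v U) f) (t : ℤ) : SubOn U (red v t f) := by
  intro S hS T hT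
  have hvS : v ∉ S := fun h => hv (hS h)
  have hvT : v ∉ T := fun h => hv (hT h)
  have sU : ∀ {X : Finset V}, X ⊆ U → X ⊆ insert v U := fun h => h.trans (subset_insert _ _)
  have iU : ∀ {X : Finset V}, X ⊆ U → insert v X ⊆ insert v U := fun h => insert_subset_insert _ h
  have h1 := hf S (sU hS) T (sU hT)
  have h2 := hf (insert v S) (iU hS) (insert v T) (iU hT)
  have h3 := hf (insert v S) (iU hS) T (sU hT)
  have h4 := hf S (sU hS) (insert v T) (iU hT)
  have e2 : insert v S ∪ insert v T = insert v (S ∪ T) := by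
    ext w; simp only [mem_union, mem_insert]; tauto
  have e2' : insert v S ∩ insert v T = insert v (S ∩ T) := by
    ext w; simp only [mem_inter, mem_insert]; tauto
  have e3 : insert v S ∪ T = insert v (S ∪ T) := by
    ext w; simp only [mem_union, mem_insert]; tauto
  have e3' : insert v S ∩ T = S ∩ T := by
    ext w; simp only [mem_inter, mem_insert]
    constructor
    · rintro ⟨rfl | h, h'⟩
      · exact absurd h' hvT
      · exact ⟨h, h'⟩
    · rintro ⟨h, h'⟩; exact ⟨Or.inr h, h'⟩
  have e4 : S ∪ insert v T = insert v (S ∪ T) := by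
    ext w; simp only [mem_union, mem_insert]; tauto
  have e4' : S ∩ insert v T = S ∩ T := by
    ext w; simp only [mem_inter, mem_insert]
    constructor
    · rintro ⟨h, rfl | h'⟩
      · exact absurd h hvS
      · exact ⟨h, h'⟩
    · rintro ⟨h, h'⟩; exact ⟨h, Or.inr h'⟩
  rw [e2, e2'] at h2
  rw [e3, e3'] at h3
  rw [e4, e4'] at h4
  unfold red
  have a1 := min_le_left (f (S ∪ T)) (f (insert v (S ∪ T)) - t)
  have a2 := min_le_right (f (S ∪ T)) (f (insert v (S ∪ T)) - t)
  have a3 := min_le_left (f (S ∩ T)) (f (insert v (S ∩ T)) - t)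
  have a4 := min_le_right (f (S ∩ T)) (f (insert v (S ∩ T)) - t)
  rcases min_choice (f S) (f (insert v S) - t) with h | h <;>
  rcases min_choice (f T) (f (insert v T) - t) with h' | h' <;>
  rw [h, h'] <;> linarith

/-- Discrete sandwich theorem. -/
theorem sandwich (U : Finset V) : ∀ f k : Finset V → ℤ, SubOn U f → SubOn U k → f ∅ = 0 →
    k ∅ = 0 → (∀ S ⊆ U, 0 ≤ f S + k S) →
    ∃ y : V → ℤ, ∀ S ⊆ U, -k S ≤ ∑ v ∈ S, y v ∧ ∑ v ∈ S, y v ≤ f S := by
  induction U using Finset.induction_on with
  | empty =>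
    intro f k _ _ f0 k0 _
    refine ⟨fun _ => 0, fun S hS => ?_⟩
    rw [subset_empty.mp hS]
    simp [f0, k0]
  | insert v U hv ih =>
    intro f k hf hk f0 k0 hfk
    have hne : U.powerset.Nonempty := ⟨∅, empty_mem_powerset _⟩
    set t : ℤ := U.powerset.sup' hne (fun X => -k (insert v X) - f X) with ht
    have sU : ∀ {X : Finset V}, X ⊆ U → X ⊆ insert v U := fun h => h.trans (subset_insert _ _)
    have iU : ∀ {X : Finset V}, X ⊆ U → insert v X ⊆ insert v U :=
      fun h => insert_subset_insert _ h
    have t1 : ∀ X ⊆ U, -k (insert v X) - f X ≤ t := fun X hX =>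
      Finset.le_sup' (fun X => -k (insert v X) - f X) (mem_powerset.mpr hX)
    have t2 : ∀ Y ⊆ U, t ≤ f (insert v Y) + k Y := by
      intro Y hY
      refine Finset.sup'_le _ _ fun X hX => ?_
      have hX := mem_powerset.mp hX
      have hvX : v ∉ X := fun h => hv (hX h)
      have hvY : v ∉ Y := fun h => hv (hY h)
      have h1 := hk (insert v X) (iU hX) Y (sU hY)
      have h2 := hf X (sU hX) (insert v Y) (iU hY)
      have e3 : insert v X ∪ Y = insert v (X ∪ Y) := by
        ext w; simp only [mem_union, mem_insert]; tauto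
      have e3' : insert v X ∩ Y = X ∩ Y := by
        ext w; simp only [mem_inter, mem_insert]
        constructor
        · rintro ⟨rfl | h, h'⟩
          · exact absurd h' hvY
          · exact ⟨h, h'⟩
        · rintro ⟨h, h'⟩; exact ⟨Or.inr h, h'⟩
      have e4 : X ∪ insert v Y = insert v (X ∪ Y) := by
        ext w; simp only [mem_union, mem_insert]; tauto
      have e4' : X ∩ insert v Y = X ∩ Y := by
        ext w; simp only [mem_inter, mem_insert]
        constructor
        · rintro ⟨h, rfl | h'⟩
          · exact absurd h hvX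
          · exact ⟨h, h'⟩
        · rintro ⟨h, h'⟩; exact ⟨h, Or.inr h'⟩
      rw [e3, e3'] at h1
      rw [e4, e4'] at h2
      have h5 := hfk (insert v (X ∪ Y)) (iU (union_subset hX hY))
      have h6 := hfk (X ∩ Y) (sU (inter_subset_left.trans hX))
      linarith
    obtain ⟨y, hy⟩ := ih (red v t f) (red v (-t) k) (red_sub hv hf t) (red_sub hv hk (-t))
      (by
        have := t2 ∅ (empty_subset _)
        unfold red
        rw [f0, min_eq_left]
        rw [k0] at this
        linarith)
      (by
        have := t1 ∅ (empty_subset _)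
        unfold red
        rw [k0, min_eq_left]
        rw [f0] at this
        linarith)
      (by
        intro S hS
        have a1 := t1 S hS
        have a2 := t2 S hS
        have a3 := hfk S (sU hS)
        have a4 := hfk (insert v S) (iU hS)
        unfold red
        rcases min_choice (f S) (f (insert v S) - t) with h | h <;>
        rcases min_choice (k S) (k (insert v S) - -t) with h' | h' <;>
        rw [h, h'] <;> linarith)
    refine ⟨fun w => if w = v then t else y w, fun S hS => ?_⟩
    by_cases hvS : v ∈ S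
    · have hS' : S.erase v ⊆ U := by
        intro w hw
        rcases mem_insert.mp (hS (mem_of_mem_erase hw)) with h | h
        · exact absurd h (ne_of_mem_erase hw)
        · exact h
      have e : ∑ w ∈ S, (if w = v then t else y w) = t + ∑ w ∈ S.erase v, y w := by
        rw [← Finset.add_sum_erase S _ hvS, if_pos rfl]
        congr 1
        refine Finset.sum_congr rfl fun w hw => ?_
        rw [if_neg (ne_of_mem_erase hw)]
      obtain ⟨h1, h2⟩ := hy _ hS'
      have h3 : red v t f (S.erase v) ≤ f S - t := by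
        unfold red
        rw [insert_erase hvS]
        exact min_le_right _ _
      have h4 : red v (-t) k (S.erase v) ≤ k S + t := by
        unfold red
        rw [insert_erase hvS]
        have := min_le_right (k (S.erase v)) (k S - -t)
        linarith
      rw [e]
      constructor <;> linarith
    · have hS' : S ⊆ U := by
        intro w hw
        rcases mem_insert.mp (hS hw) with h | h
        · exact absurd (h ▸ hw) hvS
        · exact h
      have e : ∑ w ∈ S, (if w = v then t else y w) = ∑ w ∈ S, y w := by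
        refine Finset.sum_congr rfl fun w hw => ?_
        rw [if_neg]
        rintro rfl
        exact hvS hw
      obtain ⟨h1, h2⟩ := hy _ hS'
      have h3 : red v t f S ≤ f S := min_le_left _ _
      have h4 : red v (-t) k S ≤ k S := min_le_left _ _
      rw [e]
      constructor <;> linarith

end Base

section Lovasz

variable {V : Type*} [Fintype V] [DecidableEq V]

/-- the level set `{c ≥ t}` -/
def A (c : V → ℕ) (t : ℕ) : Finset V := univ.filter (fun v => t ≤ c v)

/-- `c + χ_S` -/
def add (c : V → ℕ) (S : Finset V) : V → ℕ := fun v => c v + if v ∈ S then 1 else 0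

theorem A_zero (c : V → ℕ) : A c 0 = univ := by
  ext v; simp [A]

theorem A_add (c : V → ℕ) (S : Finset V) (t : ℕ) :
    A (add c S) (t + 1) = A c (t + 1) ∪ (S ∩ A c t) := by
  ext v
  simp only [A, mem_filter, mem_univ, true_and, mem_union, mem_inter]
  unfold add
  by_cases h : v ∈ S
  · rw [if_pos h]
    constructor
    · intro h1; exact Or.inr ⟨h, by omega⟩
    · rintro (h1 | ⟨_, h1⟩) <;> omega
  · rw [if_neg h]
    constructor
    · intro h1; exact Or.inl (by omega)
    · rintro (h1 | ⟨h2, _⟩)
      · omega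
      · exact absurd h2 h

/-- the Lovász extension at `c`, summed in the window `[1, N]` -/
def HN (h : Finset V → ℤ) (N : ℕ) (c : V → ℕ) : ℤ := ∑ t ∈ range N, h (A c (t + 1))

/-- the Lovász extension at `c` -/
def H (h : Finset V → ℤ) (c : V → ℕ) : ℤ := HN h (univ.sup c) c

theorem A_empty {c : V → ℕ} {t : ℕ} (ht : univ.sup c < t) : A c t = ∅ := by
  ext v
  simp only [A, mem_filter, mem_univ, true_and, notMem_empty, iff_false, not_le]
  exact lt_of_le_of_lt (Finset.le_sup (mem_univ v)) ht

theorem H_eq {h : Finset V → ℤ} (h0 : h ∅ = 0) {c : V → ℕ} {N : ℕ} (hN : univ.sup c ≤ N) :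
    H h c = HN h N c := by
  unfold H HN
  refine Finset.sum_subset (by simpa using hN) ?_
  intro t _ ht
  rw [mem_range, not_lt] at ht
  rw [A_empty (by omega), h0]

theorem sup_add (c : V → ℕ) (S : Finset V) : univ.sup (add c S) ≤ univ.sup c + 1 := by
  refine Finset.sup_le fun v _ => ?_
  have := Finset.le_sup (f := c) (mem_univ v)
  unfold add
  split_ifs <;> omega

theorem H_add_le {h : Finset V → ℤ} (h0 : h ∅ = 0) (hs : SubOn univ h) (c : V → ℕ)
    (S : Finset V) : H h (add c S) ≤ H h c + h S := by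
  rw [H_eq h0 (sup_add c S), H_eq h0 (Nat.le_succ (univ.sup c))]
  unfold HN
  have key : ∀ t, h (A (add c S) (t + 1)) ≤ h (A c (t + 1)) + (h (S ∩ A c t) - h (S ∩ A c (t + 1))) := by
    intro t
    rw [A_add]
    have := hs (A c (t + 1)) (subset_univ _) (S ∩ A c t) (subset_univ _)
    have e : A c (t + 1) ∩ (S ∩ A c t) = S ∩ A c (t + 1) := by
      ext v
      simp only [A, mem_filter, mem_univ, true_and, mem_inter]
      constructor
      · rintro ⟨h1, h2, _⟩; exact ⟨h2, h1⟩
      · rintro ⟨h1, h2⟩; exact ⟨h2, h1, by omega⟩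
    rw [e] at this
    linarith
  have := Finset.sum_le_sum (fun t (_ : t ∈ range (univ.sup c + 1)) => key t)
  rw [Finset.sum_add_distrib, Finset.sum_range_sub' (fun t => h (S ∩ A c t))] at this
  rw [A_zero, A_empty (Nat.lt_succ_self (univ.sup c)), inter_univ, inter_empty, h0] at this
  simpa using this

theorem tele (a : ℕ → ℤ) (s : ℕ) (N : ℕ) :
    ∑ t ∈ range N, (if t < s then a t - a (t + 1) else 0) = a 0 - a (min N s) := by
  induction N with
  | zero => simp
  | succ n ih =>
    rw [Finset.sum_range_succ, ih]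
    by_cases h : n < s
    · rw [if_pos h, min_eq_left h.le, min_eq_left (by omega : n + 1 ≤ s)]; ring
    · rw [if_neg h, min_eq_right (by omega : s ≤ n), min_eq_right (by omega : s ≤ n + 1)]; ring

theorem H_add_compl {h : Finset V → ℤ} (h0 : h ∅ = 0) (hu : h univ = 0) (c : V → ℕ) (s : ℕ) :
    H h (add c (A c s)ᶜ) = H h c - h (A c s) := by
  set N := univ.sup c + 1 + s with hN
  rw [H_eq h0 (le_trans (sup_add c _) (by omega : univ.sup c + 1 ≤ N)),
    H_eq h0 (by omega : univ.sup c ≤ N)]
  unfold HN
  have key : ∀ t, h (A (add c (A c s)ᶜ) (t + 1)) =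
      h (A c (t + 1)) + (if t < s then h (A c t) - h (A c (t + 1)) else 0) := by
    intro t
    rw [A_add]
    by_cases hts : t < s
    · rw [if_pos hts]
      have e : A c (t + 1) ∪ ((A c s)ᶜ ∩ A c t) = A c t := by
        ext v
        simp only [A, mem_filter, mem_univ, true_and, mem_inter, mem_union, mem_compl]
        omega
      rw [e]; ring
    · rw [if_neg hts]
      have e : A c (t + 1) ∪ ((A c s)ᶜ ∩ A c t) = A c (t + 1) := by
        ext v
        simp only [A, mem_filter, mem_univ, true_and, mem_inter, mem_union, mem_compl]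
        omega
      rw [e]; ring
  rw [Finset.sum_congr rfl (fun t _ => key t), Finset.sum_add_distrib,
    tele (fun t => h (A c t)) s N, min_eq_right (by omega : s ≤ N), A_zero, hu]
  ring

theorem H_add_sub {h : Finset V → ℤ} (h0 : h ∅ = 0) (hs : SubOn univ h) (c : V → ℕ) :
    SubOn univ (fun S => H h (add c S) - H h c) := by
  intro S _ T _
  have key : ∀ t, h (A (add c (S ∪ T)) (t + 1)) + h (A (add c (S ∩ T)) (t + 1)) ≤
      h (A (add c S) (t + 1)) + h (A (add c T) (t + 1)) := by
    intro t
    have := hs (A (add c S) (t + 1)) (subset_univ _) (A (add c T) (t + 1)) (subset_univ _)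
    have e1 : A (add c S) (t + 1) ∪ A (add c T) (t + 1) = A (add c (S ∪ T)) (t + 1) := by
      rw [A_add, A_add, A_add]
      ext v
      simp only [mem_union, mem_inter]
      tauto
    have e2 : A (add c S) (t + 1) ∩ A (add c T) (t + 1) = A (add c (S ∩ T)) (t + 1) := by
      rw [A_add, A_add, A_add]
      ext v
      simp only [mem_union, mem_inter]
      tauto
    rw [e1, e2] at this
    exact this
  have := Finset.sum_le_sum (fun t (_ : t ∈ range (univ.sup c + 1)) => key t)
  rw [Finset.sum_add_distrib, Finset.sum_add_distrib] at this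
  show H h (add c (S ∪ T)) - H h c + (H h (add c (S ∩ T)) - H h c) ≤
    H h (add c S) - H h c + (H h (add c T) - H h c)
  rw [H_eq h0 (sup_add c (S ∪ T)), H_eq h0 (sup_add c (S ∩ T)), H_eq h0 (sup_add c S),
    H_eq h0 (sup_add c T)]
  unfold HN at *
  linarith

/-- The statement for base polyhedra. -/
theorem base {h : Finset V → ℤ} (h0 : h ∅ = 0) (hu : h univ = 0) (hs : SubOn univ h)
    (hpos : ∀ S, 0 ≤ h S) (κ : V → ℕ) :
    ∃ c : V → ℕ, ∃ y : V → ℤ, (∀ v, c v % 2 = κ v % 2) ∧
      (∀ S, -h S ≤ ∑ v ∈ S, y v ∧ ∑ v ∈ S, y v ≤ h S) ∧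
      ∀ s, ∑ v ∈ A c s, y v = h (A c s) := by
  have Hpos : ∀ c, 0 ≤ H h c := by
    intro c
    unfold H HN
    exact Finset.sum_nonneg fun t _ => hpos _
  obtain ⟨c, hc, hmin⟩ := (measure (fun c : V → ℕ => (H h c).toNat)).wf.has_min
    {c | ∀ v, c v % 2 = κ v % 2} ⟨κ, fun v => rfl⟩
  have hmin' : ∀ d : V → ℕ, (∀ v, d v % 2 = κ v % 2) → H h c ≤ H h d := by
    intro d hd
    have h1 : ¬ ((H h d).toNat < (H h c).toNat) := hmin d hd
    have h2 := Hpos c
    have h3 := Hpos d
    omega
  have hfk : ∀ S ⊆ (univ : Finset V), 0 ≤ (H h (add c S) - H h c) + h S := by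
    intro S _
    have h1 := H_add_le h0 hs (add c S) S
    have h2 := hmin' (add (add c S) S) (by
      intro v
      have := hc v
      unfold add
      split_ifs <;> omega)
    linarith
  obtain ⟨y, hy⟩ := sandwich univ (fun S => H h (add c S) - H h c) h (H_add_sub h0 hs c) hs
    (by
      have : add c ∅ = c := by
        funext v; simp [add]
      simp [this]) h0 hfk
  have hle : ∀ S, ∑ v ∈ S, y v ≤ h S := by
    intro S
    have h1 := (hy S (subset_univ _)).2
    have h2 := H_add_le h0 hs c S
    linarith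
  have hge : ∀ S, -h S ≤ ∑ v ∈ S, y v := fun S => (hy S (subset_univ _)).1
  refine ⟨c, y, hc, fun S => ⟨hge S, hle S⟩, fun s => ?_⟩
  have h1 := (hy (A c s)ᶜ (subset_univ _)).2
  have h2 := H_add_compl h0 hu c s
  have h3 := hge univ
  have h4 := hle (A c s)
  have h5 := Finset.sum_add_sum_compl (A c s) y
  rw [hu] at h3
  have h1' : ∑ v ∈ (A c s)ᶜ, y v ≤ H h (add c (A c s)ᶜ) - H h c := h1
  linarith

end Lovasz

section GPoly

variable {V : Type*} [Fintype V] [DecidableEq V]

/-- the function on `V ∪ {∞}` whose base polyhedron projects onto `Q(p,b)` -/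
def lift (p b : Finset V → ℤ) (S : Finset (Option V)) : ℤ :=
  if none ∈ S then -p (univ.filter (fun v => some v ∉ S))
  else b (univ.filter (fun v => some v ∈ S))

theorem lift_sub {p b : Finset V → ℤ}
    (hp : ∀ X Y, p X + p Y ≤ p (X ∪ Y) + p (X ∩ Y))
    (hb : ∀ X Y, b (X ∪ Y) + b (X ∩ Y) ≤ b X + b Y)
    (hpb : ∀ X Y, b (X \ Y) - p (Y \ X) ≤ b X - p Y) : SubOn univ (lift p b) := by
  intro S _ T _
  unfold lift
  by_cases hS : none ∈ S <;> by_cases hT : none ∈ T
  · rw [if_pos (mem_union_left _ hS), if_pos (mem_inter.mpr ⟨hS, hT⟩), if_pos hS, if_pos hT]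
    have := hp (univ.filter (fun v => some v ∉ S)) (univ.filter (fun v => some v ∉ T))
    have e1 : univ.filter (fun v => some v ∉ S) ∪ univ.filter (fun v => some v ∉ T) =
        univ.filter (fun v => some v ∉ S ∩ T) := by
      ext v; simp only [mem_union, mem_filter, mem_univ, true_and, mem_inter]; tauto
    have e2 : univ.filter (fun v => some v ∉ S) ∩ univ.filter (fun v => some v ∉ T) =
        univ.filter (fun v => some v ∉ S ∪ T) := by
      ext v; simp only [mem_union, mem_filter, mem_univ, true_and, mem_inter]; tauto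
    rw [e1, e2] at this
    linarith
  · rw [if_pos (mem_union_left _ hS), if_neg (fun h => hT (mem_inter.mp h).2), if_pos hS,
      if_neg hT]
    have := hpb (univ.filter (fun v => some v ∈ T)) (univ.filter (fun v => some v ∉ S))
    have e1 : univ.filter (fun v => some v ∈ T) \ univ.filter (fun v => some v ∉ S) =
        univ.filter (fun v => some v ∈ S ∩ T) := by
      ext v; simp only [mem_sdiff, mem_filter, mem_univ, true_and, mem_inter]; tauto
    have e2 : univ.filter (fun v => some v ∉ S) \ univ.filter (fun v => some v ∈ T) =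
        univ.filter (fun v => some v ∉ S ∪ T) := by
      ext v; simp only [mem_sdiff, mem_filter, mem_univ, true_and, mem_union]; tauto
    rw [e1, e2] at this
    linarith
  · rw [if_pos (mem_union_right _ hT), if_neg (fun h => hS (mem_inter.mp h).1), if_neg hS,
      if_pos hT]
    have := hpb (univ.filter (fun v => some v ∈ S)) (univ.filter (fun v => some v ∉ T))
    have e1 : univ.filter (fun v => some v ∈ S) \ univ.filter (fun v => some v ∉ T) =
        univ.filter (fun v => some v ∈ S ∩ T) := by
      ext v; simp only [mem_sdiff, mem_filter, mem_univ, true_and, mem_inter]; tauto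
    have e2 : univ.filter (fun v => some v ∉ T) \ univ.filter (fun v => some v ∈ S) =
        univ.filter (fun v => some v ∉ S ∪ T) := by
      ext v; simp only [mem_sdiff, mem_filter, mem_univ, true_and, mem_union]; tauto
    rw [e1, e2] at this
    linarith
  · rw [if_neg (fun h => (mem_union.mp h).elim hS hT), if_neg (fun h => hS (mem_inter.mp h).1),
      if_neg hS, if_neg hT]
    have := hb (univ.filter (fun v => some v ∈ S)) (univ.filter (fun v => some v ∈ T))
    have e1 : univ.filter (fun v => some v ∈ S) ∪ univ.filter (fun v => some v ∈ T) =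
        univ.filter (fun v => some v ∈ S ∪ T) := by
      ext v; simp only [mem_union, mem_filter, mem_univ, true_and]
    have e2 : univ.filter (fun v => some v ∈ S) ∩ univ.filter (fun v => some v ∈ T) =
        univ.filter (fun v => some v ∈ S ∩ T) := by
      ext v; simp only [mem_filter, mem_univ, true_and, mem_inter]
    rw [e1, e2] at this
    linarith

theorem lift_map (p b : Finset V → ℤ) (X : Finset V) :
    lift p b (X.map Function.Embedding.some) = b X := by
  unfold lift
  rw [if_neg (by simp)]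
  congr 1
  ext v; simp

theorem lift_compl (p b : Finset V → ℤ) (X : Finset V) :
    lift p b (X.map Function.Embedding.some)ᶜ = -p X := by
  unfold lift
  rw [if_pos (by simp)]
  congr 2
  ext v; simp

theorem gpoly (p b : Finset V → ℤ) (hp0 : p ∅ = 0) (hb0 : b ∅ = 0)
    (hp : ∀ X Y, p X + p Y ≤ p (X ∪ Y) + p (X ∩ Y))
    (hb : ∀ X Y, b (X ∪ Y) + b (X ∩ Y) ≤ b X + b Y)
    (hpb : ∀ X Y, b (X \ Y) - p (Y \ X) ≤ b X - p Y)
    (h0 : ∀ X, p X ≤ 0 ∧ 0 ≤ b X) (κ : V → ℤ) :
    ∃ c y : V → ℤ, (∀ v, c v ≡ κ v [ZMOD 2]) ∧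
      (∀ X, p X ≤ ∑ v ∈ X, y v ∧ ∑ v ∈ X, y v ≤ b X) ∧
      (∀ X, p X ≤ -∑ v ∈ X, y v ∧ -∑ v ∈ X, y v ≤ b X) ∧
      (∀ t : ℤ, 0 < t → ∑ v ∈ univ.filter (fun v => t ≤ c v), y v =
        b (univ.filter (fun v => t ≤ c v))) ∧
      (∀ t : ℤ, t < 0 → ∑ v ∈ univ.filter (fun v => c v ≤ t), y v =
        p (univ.filter (fun v => c v ≤ t))) := by
  have l0 : lift p b ∅ = 0 := by
    have := lift_map p b ∅
    rw [map_empty, hb0] at this
    exact this
  have lu : lift p b univ = 0 := by
    have := lift_compl p b ∅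
    rw [map_empty, hp0, compl_empty, neg_zero] at this
    exact this
  have lpos : ∀ S, 0 ≤ lift p b S := by
    intro S
    unfold lift
    split_ifs
    · have := (h0 (univ.filter (fun v => some v ∉ S))).1
      linarith
    · exact (h0 _).2
  obtain ⟨c, y, hc, hy, ht⟩ := base l0 lu (lift_sub hp hb hpb) lpos
    (fun o => match o with
      | none => 0
      | some v => (κ v % 2).toNat)
  have sm : ∀ X : Finset V, ∑ o ∈ X.map Function.Embedding.some, y o = ∑ v ∈ X, y (some v) :=
    fun X => by rw [Finset.sum_map]; rfl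
  have yu : ∑ o, y o = 0 := by
    have := hy univ
    rw [lu] at this
    linarith [this.1, this.2]
  have sc : ∀ X : Finset V, ∑ o ∈ (X.map Function.Embedding.some)ᶜ, y o =
      -∑ v ∈ X, y (some v) := by
    intro X
    have := Finset.sum_add_sum_compl (X.map Function.Embedding.some) y
    rw [sm, yu] at this
    linarith
  refine ⟨fun v => (c (some v) : ℤ) - c none, fun v => y (some v), ?_, ?_, ?_, ?_, ?_⟩
  · intro v
    have h1 : c (some v) % 2 = (κ v % 2).toNat % 2 := hc (some v)
    have h2 : c none % 2 = 0 % 2 := hc none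
    show ((c (some v) : ℤ) - c none) % 2 = κ v % 2
    omega
  · intro X
    have h1 := hy (X.map Function.Embedding.some)
    have h2 := hy (X.map Function.Embedding.some)ᶜ
    rw [sm, lift_map] at h1
    rw [sc, lift_compl] at h2
    constructor <;> linarith [h1.1, h1.2, h2.1, h2.2]
  · intro X
    have h1 := hy (X.map Function.Embedding.some)
    have h2 := hy (X.map Function.Embedding.some)ᶜ
    rw [sm, lift_map] at h1
    rw [sc, lift_compl] at h2
    constructor <;> linarith [h1.1, h1.2, h2.1, h2.2]
  · intro t ht0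
    have h1 := ht (t + c none).toNat
    have e : A c (t + c none).toNat = (univ.filter (fun v : V => t ≤ (c (some v) : ℤ) - c none)).map
        Function.Embedding.some := by
      ext o
      cases o with
      | none => simp [A]; omega
      | some v => simp [A]; omega
    rw [e, sm, lift_map] at h1
    exact h1
  · intro t ht0
    have h1 := ht (t + 1 + c none).toNat
    have e : A c (t + 1 + c none).toNat =
        ((univ.filter (fun v : V => (c (some v) : ℤ) - c none ≤ t)).map
        Function.Embedding.some)ᶜ := by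
      ext o
      cases o with
      | none => simp [A]; omega
      | some v => simp [A]; omega
    rw [e, sc, lift_compl] at h1
    have h2 := neg_inj.mp h1
    exact h2

theorem cnt (a : ℤ) (z : ℝ) (N : ℕ) :
    ∑ t ∈ range N, (if (t : ℤ) + 1 ≤ a then z else 0) =
      ((max 0 (min (N : ℤ) a) : ℤ) : ℝ) * z := by
  induction N with
  | zero =>
    rw [show max 0 (min (((0 : ℕ) : ℤ)) a) = 0 by omega]
    simp
  | succ n ih =>
    rw [Finset.sum_range_succ, ih]
    by_cases h : (n : ℤ) + 1 ≤ a
    · rw [if_pos h, show max 0 (min (n : ℤ) a) = (n : ℤ) by omega,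
        show max 0 (min (((n + 1 : ℕ) : ℤ)) a) = ((n + 1 : ℕ) : ℤ) by omega]
      push_cast
      ring
    · rw [if_neg h, show max 0 (min (((n + 1 : ℕ) : ℤ)) a) = max 0 (min (n : ℤ) a) by omega]
      ring

theorem maxi (c : V → ℤ) (z : V → ℝ)
    (h1 : ∀ t : ℤ, 0 < t → ∑ v ∈ univ.filter (fun v => t ≤ c v), z v ≤ 0)
    (h2 : ∀ t : ℤ, t < 0 → 0 ≤ ∑ v ∈ univ.filter (fun v => c v ≤ t), z v) :
    ∑ v, (c v : ℝ) * z v ≤ 0 := by
  set N := ∑ v, (c v).natAbs with hN
  have hNv : ∀ v, (c v).natAbs ≤ N := fun v =>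
    Finset.single_le_sum (f := fun v => (c v).natAbs) (fun _ _ => Nat.zero_le _) (mem_univ v)
  have key : ∀ v, (c v : ℝ) * z v = ∑ t ∈ range N, (if (t : ℤ) + 1 ≤ c v then z v else 0) -
      ∑ t ∈ range N, (if c v ≤ -((t : ℤ) + 1) then z v else 0) := by
    intro v
    have e : ∀ t ∈ range N, (if c v ≤ -((t : ℤ) + 1) then z v else 0) =
        (if (t : ℤ) + 1 ≤ -c v then z v else 0) := by
      intro t _
      by_cases h : c v ≤ -((t : ℤ) + 1)
      · rw [if_pos h, if_pos (by omega)]
      · rw [if_neg h, if_neg (by omega)]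
    rw [Finset.sum_congr rfl e, cnt, cnt, ← sub_mul, ← Int.cast_sub]
    have := hNv v
    rw [show max 0 (min (N : ℤ) (c v)) - max 0 (min (N : ℤ) (-c v)) = c v by omega]
  rw [Finset.sum_congr rfl (fun v _ => key v), Finset.sum_sub_distrib, Finset.sum_comm,
    Finset.sum_comm (s := univ) (t := range N)
      (f := fun v t => if c v ≤ -((t : ℤ) + 1) then z v else 0)]
  have a1 : ∑ t ∈ range N, ∑ v, (if (t : ℤ) + 1 ≤ c v then z v else 0) ≤ 0 := by
    refine Finset.sum_nonpos fun t _ => ?_
    rw [← Finset.sum_filter]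
    exact h1 _ (by omega)
  have a2 : 0 ≤ ∑ t ∈ range N, ∑ v, (if c v ≤ -((t : ℤ) + 1) then z v else 0) := by
    refine Finset.sum_nonneg fun t _ => ?_
    rw [← Finset.sum_filter]
    exact h2 _ (by omega)
  linarith

end GPoly

end Pool.H465.ParityDirection

/-- Let `Q(p,b) = {x : p(X) ≤ x(X) ≤ b(X) for all X}` be an integer g-polymatroid containing `0`.
Then for every parity vector `κ` there are an integral direction `c ≡ κ (mod 2)` and an integral
point `y` with `y ∈ Q(p,b)` and `-y ∈ Q(p,b)` such that `y` maximises `c · x` over `Q(p,b)`. -/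
theorem Pool.Agent.Results.MP_8bd56d_co.ParityDirection.result
    {V : Type*} [Fintype V] [DecidableEq V] (p b : Finset V → ℤ) (hp0 : p ∅ = 0) (hb0 : b ∅ = 0)
    (hp : ∀ X Y, p X + p Y ≤ p (X ∪ Y) + p (X ∩ Y))
    (hb : ∀ X Y, b (X ∪ Y) + b (X ∩ Y) ≤ b X + b Y)
    (hpb : ∀ X Y, b (X \ Y) - p (Y \ X) ≤ b X - p Y)
    (h0 : ∀ X, p X ≤ 0 ∧ 0 ≤ b X) (κ : V → ℤ) :
    ∃ c y : V → ℤ, (∀ v, c v ≡ κ v [ZMOD 2]) ∧
      (∀ X, p X ≤ ∑ v ∈ X, y v ∧ ∑ v ∈ X, y v ≤ b X) ∧
      (∀ X, p X ≤ ∑ v ∈ X, -y v ∧ ∑ v ∈ X, -y v ≤ b X) ∧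
      ∀ x : V → ℝ, (∀ X, (p X : ℝ) ≤ ∑ v ∈ X, x v ∧ ∑ v ∈ X, x v ≤ (b X : ℝ)) →
        ∑ v, (c v : ℝ) * x v ≤ ∑ v, (c v : ℝ) * (y v : ℝ) := by
  obtain ⟨c, y, hc, hy, hy', t1, t2⟩ :=
    Pool.H465.ParityDirection.gpoly p b hp0 hb0 hp hb hpb h0 κ
  refine ⟨c, y, hc, hy, fun X => ?_, fun x hx => ?_⟩
  · rw [Finset.sum_neg_distrib]
    exact hy' X
  · have := Pool.H465.ParityDirection.maxi c (fun v => x v - y v) (by
      intro t ht
      have h1 := t1 t ht
      have h2 := (hx (Finset.univ.filter (fun v => t ≤ c v))).2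
      rw [Finset.sum_sub_distrib, ← Int.cast_sum, h1]
      linarith) (by
      intro t ht
      have h1 := t2 t ht
      have h2 := (hx (Finset.univ.filter (fun v => c v ≤ t))).1
      rw [Finset.sum_sub_distrib, ← Int.cast_sum, h1]
      linarith)
    simp only [mul_sub] at this
    rw [Finset.sum_sub_distrib] at this
    linarith
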